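import Pool.Agent.Helper230.FEq2

/-!
# Family equivalence of context-free grammars is undecidable

Letters are natural numbers; a language is a set of words over the natural numbers.
-/

set_option linter.constructorNameAsVariable false

namespace Pool.Agent.Results.MP_3cd25e_lc.FamilyEquivalence

/-- A context-free grammar with disjoint finite sets `N` (nonterminals) and `T` (terminals) of
letters, start letter `S` and finite production set `P` (a pair `(A, β)` is the production
`A → β`), without productions `A → λ`. -/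
structure Grammar where
  N : Finset ℕ
  T : Finset ℕ
  S : ℕ
  P : Finset (ℕ × List ℕ)
  disj : Disjoint N T
  start_mem : S ∈ N
  wf : ∀ p ∈ P, p.1 ∈ N ∧ p.2 ≠ [] ∧ ∀ x ∈ p.2, x ∈ N ∨ x ∈ T

/-- One derivation step. -/
def Grammar.Step (G : Grammar) (u v : List ℕ) : Prop :=
  ∃ (l r : List ℕ) (A : ℕ) (β : List ℕ), (A, β) ∈ G.P ∧ u = l ++ A :: r ∧ v = l ++ β ++ r

/-- The language `L(G)`. -/
def Grammar.language (G : Grammar) : Set (List ℕ) :=
  {w | (∀ x ∈ w, x ∈ G.T) ∧ Relation.ReflTransGen G.Step [G.S] w}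

/-- `G'` is the interpretation of `G` given by the assignment `σ` of (possibly empty) finite
sets of letters (and by the choice of a start letter in `σ(S)` and of a subset of `σ(P)`). -/
structure IsInterpretation (G G' : Grammar) (σ : ℕ → Finset ℕ) : Prop where
  disjoint : ∀ x ∈ G.N ∪ G.T, ∀ y ∈ G.N ∪ G.T, x ≠ y → Disjoint (σ x) (σ y)
  nonterminals : G'.N = G.N.biUnion σ
  terminals : G'.T = G.T.biUnion σ
  start : G'.S ∈ σ G.S
  productions : ∀ p ∈ G'.P, ∃ q ∈ G.P,
    p.1 ∈ σ q.1 ∧ List.Forall₂ (fun x' x => x' ∈ σ x) p.2 q.2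

/-- The grammatical family of `G`: the languages of all interpretations of `G`. -/
def family (G : Grammar) : Set (Set (List ℕ)) :=
  {L | ∃ (G' : Grammar) (σ : ℕ → Finset ℕ), IsInterpretation G G' σ ∧ L = G'.language}

/-- `G` is linear: every production contains at most one nonterminal on its right side. -/
def Grammar.Linear (G : Grammar) : Prop :=
  ∀ p ∈ G.P, (p.2.filter (fun x => x ∈ G.N)).length ≤ 1

/-- A finite description of a grammar: the lists of its nonterminals, of its terminals and of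
its productions, and its start letter. -/
abbrev Desc := (List ℕ × List ℕ) × (List (ℕ × List ℕ) × ℕ)

/-- `d` is a description of the grammar `G`. -/
def Describes (d : Desc) (G : Grammar) : Prop :=
  d.1.1.toFinset = G.N ∧ d.1.2.toFinset = G.T ∧ d.2.1.toFinset = G.P ∧ d.2.2 = G.S

open Pool.Agent.Helper230

theorem Grammar.not_mem {G : Grammar} {x : ℕ} (h : x ∈ G.N) : x ∉ G.T :=
  fun h' => (Finset.disjoint_left.1 G.disj) h h'

def Grammar.dat (G : Grammar) : GDat where
  N := G.N
  T := G.T
  S := G.S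
  P := G.P
  disj := fun _ h h' => G.not_mem h h'
  hS := G.start_mem
  wf := fun p hp => ⟨(G.wf p hp).1, (G.wf p hp).2.2⟩

theorem all_ters {Q : Type} {T' : Finset ℕ} (e : Q → ℕ) (he : ∀ q, e q ∉ T')
    (U : List (Q ⊕ ℕ)) (hw : ∀ x ∈ U.map (Sum.elim e id), x ∈ T') :
    U = (U.map (Sum.elim e id)).map Sum.inr := by
  induction U with
  | nil => rfl
  | cons x U ih =>
    have ih' := ih (fun y hy => hw y (by rw [List.map_cons]; exact List.mem_cons_of_mem _ hy))
    cases x with
    | inl q => exact absurd (hw (e q) (by simp)) (he q)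
    | inr x =>
      rw [List.map_cons, List.map_cons, ← ih']
      rfl

theorem lang_eq (G' : Grammar) {Q : Type} (e : Q → ℕ) (R : Set (Q × List (Q ⊕ ℕ))) (s : Q)
    (hs : G'.S = e s) (he : ∀ q, e q ∈ G'.N)
    (h1 : ∀ q β, (q, β) ∈ R → (e q, β.map (Sum.elim e id)) ∈ G'.P ∧
      ∀ x, Sum.inr x ∈ β → x ∈ G'.T)
    (h2 : ∀ q γ, (e q, γ) ∈ G'.P → ∃ β, (q, β) ∈ R ∧ γ = β.map (Sum.elim e id)) :
    G'.language = {w | Der (ExR R) [Sum.inl s] w} := by
  ext w
  constructor
  · rintro ⟨hw, hd⟩
    have key : ∀ u, Relation.ReflTransGen G'.Step u w → ∀ U : List (Q ⊕ ℕ),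
        u = U.map (Sum.elim e id) → (∀ x, Sum.inr x ∈ U → x ∈ G'.T) → Der (ExR R) U w := by
      intro u hu
      induction hu using Relation.ReflTransGen.head_induction_on with
      | refl =>
        intro U hU _
        have : U = w.map Sum.inr := by
          subst hU
          exact all_ters (T' := G'.T) e (fun q => G'.not_mem (he q)) U hw
        rw [this]
        exact Der.of_ters w
      | head hstep _ ih =>
        intro U hU hT
        obtain ⟨l, r, A, β, hA, rfl, rfl⟩ := hstep
        obtain ⟨U1, U2, rfl, h3, h4⟩ := List.map_eq_append_iff.1 hU.symm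
        obtain ⟨x, U3, rfl, h5, h6⟩ := List.map_eq_cons_iff.1 h4
        cases x with
        | inr x =>
          exfalso
          have h7 : x = A := h5
          subst h7
          exact G'.not_mem (G'.wf _ hA).1 (hT x (by simp))
        | inl q =>
          have h7 : e q = A := h5
          subst h7
          obtain ⟨β0, hβ0, rfl⟩ := h2 q β hA
          have h8 := ih (U1 ++ β0 ++ U3) (by simp [h3, h6]) (by
            intro x hx
            rw [List.mem_append, List.mem_append] at hx
            rcases hx with (hx | hx) | hx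
            · exact hT x (List.mem_append_left _ hx)
            · exact (h1 _ _ hβ0).2 x hx
            · exact hT x (List.mem_append_right _ (List.mem_cons_of_mem _ hx)))
          exact Der.of_step ⟨U1, U3, q, β0, rfl, hβ0, rfl⟩ h8
    exact key _ hd [Sum.inl s] (by simp [hs]) (by simp)
  · rintro hd
    have hd' := (rtg_iff_Der _ _).2 hd
    obtain ⟨n, hn⟩ := hd
    refine ⟨?_, ?_⟩
    · exact DerN_letters (D := G'.T) (fun r hr x hx => (h1 r.1 r.2 hr).2 x hx) hn (by simp)
    · have h3 : ∀ u v, Step (ExR R) u v →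
          G'.Step (u.map (Sum.elim e id)) (v.map (Sum.elim e id)) := by
        rintro _ _ ⟨pre, suf, q, x, rfl, hx, rfl⟩
        exact ⟨pre.map (Sum.elim e id), suf.map (Sum.elim e id), e q, x.map (Sum.elim e id),
          (h1 _ _ hx).1, by simp, by simp⟩
      have h4 := Relation.ReflTransGen.lift (r := Step (ExR R)) (p := G'.Step)
        (fun u => u.map (Sum.elim e id)) h3 _ _ hd'
      have h5 : (w.map (Sum.inr : ℕ → Q ⊕ ℕ)).map (Sum.elim e id) = w := by
        rw [List.map_map]
        conv_rhs => rw [← List.map_id w]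
        rfl
      simp only [Function.onFun] at h4
      rw [h5] at h4
      simpa [hs] using h4

theorem fam_gen {G : Grammar} {L : Set (List ℕ)} (hL : L ∈ family G) :
    ∃ τ : ℕ → ℕ, Gen G.dat τ L := by
  classical
  obtain ⟨G', σ, hI, rfl⟩ := hL
  have hN : ∀ q : {x // x ∈ G'.N}, ∃ A ∈ G.N, q.1 ∈ σ A := by
    rintro ⟨q, hq⟩
    rw [hI.nonterminals, Finset.mem_biUnion] at hq
    exact hq
  choose ν hν1 hν2 using hN
  have hT : ∀ x : ℕ, ∃ t, x ∈ G'.T → t ∈ G.T ∧ x ∈ σ t := by
    intro x
    by_cases hx : x ∈ G'.T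
    · rw [hI.terminals, Finset.mem_biUnion] at hx
      obtain ⟨t, ht, hxt⟩ := hx
      exact ⟨t, fun _ => ⟨ht, hxt⟩⟩
    · exact ⟨0, fun h => absurd h hx⟩
  choose τ hτ using hT
  have huniq : ∀ z x y, x ∈ G.N ∪ G.T → y ∈ G.N ∪ G.T → z ∈ σ x → z ∈ σ y → x = y := by
    intro z x y hx hy h1 h2
    by_contra hne
    exact (Finset.disjoint_left.1 (hI.disjoint x hx y hy hne)) h1 h2
  let e : {x // x ∈ G'.N} → ℕ := Subtype.val
  let R : Set ({x // x ∈ G'.N} × List ({x // x ∈ G'.N} ⊕ ℕ)) :=
    {r | (e r.1, r.2.map (Sum.elim e id)) ∈ G'.P ∧ ∀ x, Sum.inr x ∈ r.2 → x ∈ G'.T}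
  refine ⟨τ, {x // x ∈ G'.N}, inferInstance, ν, ⟨G'.S, G'.start_mem⟩, R, G'.T, ?_, hν1, ?_, ?_, ?_,
    ?_⟩
  · exact huniq G'.S _ _ (Finset.mem_union_left _ (hν1 _)) (Finset.mem_union_left _ G.start_mem)
      (hν2 ⟨G'.S, G'.start_mem⟩) hI.start
  · intro x hx
    exact (hτ x hx).1
  · rintro ⟨q, β⟩ ⟨hr, hx⟩
    obtain ⟨⟨A, γ⟩, hq, hA, hF⟩ := hI.productions _ hr
    dsimp only at hA hF hx ⊢
    have hwf := G.wf _ hq
    have h1 : ν q = A := huniq q.1 _ _ (Finset.mem_union_left _ (hν1 q))
      (Finset.mem_union_left _ hwf.1) (hν2 q) hA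
    have h2 : β.map (Sum.elim ν τ) = γ := by
      have hγ : ∀ x ∈ γ, x ∈ G.N ∪ G.T := fun x hx => Finset.mem_union.2 (hwf.2.2 x hx)
      clear hr hq hwf
      induction β generalizing γ with
      | nil =>
        cases γ with
        | nil => rfl
        | cons y γ => simp at hF
      | cons x β ih =>
        cases γ with
        | nil => simp at hF
        | cons y γ =>
          rw [List.map_cons, List.forall₂_cons] at hF
          rw [List.map_cons, ih (fun y hy => hx y (List.mem_cons_of_mem _ hy)) γ hF.2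
            (fun y hy => hγ y (List.mem_cons_of_mem _ hy))]
          congr 1
          cases x with
          | inl q' =>
            exact huniq q'.1 _ _ (Finset.mem_union_left _ (hν1 q')) (hγ y List.mem_cons_self)
              (hν2 q') hF.1
          | inr x =>
            have hxT := hx x List.mem_cons_self
            exact huniq x _ _ (Finset.mem_union_right _ (hτ x hxT).1)
              (hγ y List.mem_cons_self) (hτ x hxT).2 hF.1
    rw [h1, h2]
    exact hq
  · rintro ⟨q, β⟩ ⟨_, hx⟩ x h
    exact hx x h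
  · refine lang_eq G' e R _ rfl (fun q => q.2) (fun q β h => ⟨h.1, h.2⟩) ?_
    intro q γ hγ
    have hwf := (G'.wf _ hγ).2.2
    let lf : ℕ → {x // x ∈ G'.N} ⊕ ℕ := fun x => if h : x ∈ G'.N then Sum.inl ⟨x, h⟩ else Sum.inr x
    have h1 : (γ.map lf).map (Sum.elim e id) = γ := by
      rw [List.map_map]
      conv_rhs => rw [← List.map_id γ]
      apply List.map_congr_left
      intro x _
      simp only [Function.comp_apply, lf]
      split_ifs <;> rfl
    refine ⟨γ.map lf, ⟨?_, ?_⟩, h1.symm⟩
    · dsimp only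
      rw [h1]; exact hγ
    · intro x hx
      obtain ⟨y, hy, hxy⟩ := List.mem_map.1 hx
      simp only [lf] at hxy
      split_ifs at hxy with h
      have : y = x := by simpa using hxy
      subst this
      rcases hwf y hy with h2 | h2
      · exact absurd h2 h
      · exact h2

theorem gen_fam {G : Grammar} {τ : ℕ → ℕ} {L : Set (List ℕ)} (hL : Gen G.dat τ L) :
    L ∈ family G := by
  classical
  obtain ⟨Q, hQ, ν, s, R, D, hs, hN, hD, hR, hRD, rfl⟩ := hL
  have : Fintype Q := Fintype.ofFinite Q
  obtain ⟨idx, hidx⟩ := exists_injective_nat Q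
  let M : ℕ := D.sup id + 1
  have hM : ∀ x ∈ D, x < M := fun x hx => Nat.lt_succ_of_le (Finset.le_sup (f := id) hx)
  let e : Q → ℕ := fun q => M + 2 * idx q
  let fr : ℕ → ℕ := fun y => M + 2 * y + 1
  have he : Function.Injective e := by
    intro q q' h
    apply hidx
    simp only [e] at h
    omega
  let σ : ℕ → Finset ℕ := fun y =>
    if y ∈ G.N then (Finset.univ.filter (fun q => ν q = y)).image e ∪ {fr y}
    else if y ∈ G.T then D.filter (fun x => τ x = y) ∪ {fr y} else ∅
  have hσN : ∀ y ∈ G.N, ∀ z, z ∈ σ y ↔ (∃ q, ν q = y ∧ e q = z) ∨ z = fr y := by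
    intro y hy z
    simp only [σ, if_pos hy, Finset.mem_union, Finset.mem_image, Finset.mem_filter,
      Finset.mem_univ, true_and, Finset.mem_singleton]
  have hσT : ∀ y ∈ G.T, ∀ z, z ∈ σ y ↔ (z ∈ D ∧ τ z = y) ∨ z = fr y := by
    intro y hy z
    have hy' : y ∉ G.N := fun h => G.not_mem h hy
    simp only [σ, if_neg hy', if_pos hy, Finset.mem_union, Finset.mem_filter,
      Finset.mem_singleton]
  have hdisj : ∀ x ∈ G.N ∪ G.T, ∀ y ∈ G.N ∪ G.T, x ≠ y → Disjoint (σ x) (σ y) := by
    intro x hx y hy hne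
    rw [Finset.disjoint_left]
    intro z hz1 hz2
    rcases Finset.mem_union.1 hx with hx | hx <;> rcases Finset.mem_union.1 hy with hy | hy
    · rw [hσN x hx] at hz1
      rw [hσN y hy] at hz2
      rcases hz1 with ⟨q, rfl, rfl⟩ | rfl <;> rcases hz2 with ⟨q', h1, h2⟩ | h2
      · rw [he h2] at h1; exact hne h1
      · simp only [e, fr] at h2; omega
      · simp only [e, fr] at h2; omega
      · simp only [fr] at h2; omega
    · rw [hσN x hx] at hz1
      rw [hσT y hy] at hz2
      rcases hz1 with ⟨q, rfl, rfl⟩ | rfl <;> rcases hz2 with ⟨h1, h2⟩ | h2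
      · have := hM _ h1; simp only [e] at this; omega
      · simp only [e, fr] at h2; omega
      · have := hM _ h1; simp only [fr] at this; omega
      · simp only [fr] at h2; omega
    · rw [hσT x hx] at hz1
      rw [hσN y hy] at hz2
      rcases hz2 with ⟨q, rfl, rfl⟩ | rfl <;> rcases hz1 with ⟨h1, h2⟩ | h2
      · have := hM _ h1; simp only [e] at this; omega
      · simp only [e, fr] at h2; omega
      · have := hM _ h1; simp only [fr] at this; omega
      · simp only [fr] at h2; omega
    · rw [hσT x hx] at hz1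
      rw [hσT y hy] at hz2
      rcases hz1 with ⟨h1, h2⟩ | h2 <;> rcases hz2 with ⟨h3, h4⟩ | h4
      · exact hne (h2.symm.trans h4)
      · have := hM _ h1; simp only [fr] at h4; omega
      · have := hM _ h3; simp only [fr] at h2; omega
      · rw [h2] at h4; simp only [fr] at h4; omega
  have henc : ∀ β : List (Q ⊕ ℕ), (∀ x, Sum.inr x ∈ β → x ∈ D) → ∀ z ∈ β,
      Sum.elim e id z ∈ σ (Sum.elim ν τ z) := by
    intro β hβ z hz
    cases z with
    | inl q =>
      simp only [Sum.elim_inl]
      rw [hσN _ (hN q)]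
      exact Or.inl ⟨q, rfl, rfl⟩
    | inr x =>
      simp only [Sum.elim_inr, id_eq]
      rw [hσT _ (hD x (hβ x hz))]
      exact Or.inl ⟨hβ x hz, rfl⟩
  -- finiteness of the rules
  have hRfin : R.Finite := by
    obtain ⟨n, hn⟩ : ∃ n, ∀ p ∈ G.P, p.2.length < n := by
      refine ⟨G.P.sup (fun p => p.2.length) + 1, fun p hp => Nat.lt_succ_of_le ?_⟩
      exact Finset.le_sup (f := fun p : ℕ × List ℕ => p.2.length) hp
    have hE : (Set.range (Sum.inl : Q → Q ⊕ ℕ) ∪ Sum.inr '' (D : Set ℕ)).Finite :=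
      (Set.finite_range _).union (Set.Finite.image _ D.finite_toSet)
    refine ((Set.finite_univ (α := Q)).prod (FEq.finite_words _ hE n)).subset ?_
    rintro ⟨q, β⟩ hr
    refine ⟨Set.mem_univ _, ?_, ?_⟩
    · intro x hx
      cases x with
      | inl q => exact Or.inl ⟨q, rfl⟩
      | inr x => exact Or.inr ⟨x, hRD _ hr x hx, rfl⟩
    · have := hn _ (hR _ hr)
      simpa using this
  let P' : Finset (ℕ × List ℕ) :=
    hRfin.toFinset.image (fun r => (e r.1, r.2.map (Sum.elim e id)))
  have hP' : ∀ p, p ∈ P' ↔ ∃ q β, (q, β) ∈ R ∧ (e q, β.map (Sum.elim e id)) = p := by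
    intro p
    simp only [P', Finset.mem_image, Set.Finite.mem_toFinset, Prod.exists]
  let G' : Grammar :=
    { N := G.N.biUnion σ
      T := G.T.biUnion σ
      S := e s
      P := P'
      disj := by
        rw [Finset.disjoint_left]
        intro z h1 h2
        rw [Finset.mem_biUnion] at h1 h2
        obtain ⟨x, hx, hzx⟩ := h1
        obtain ⟨y, hy, hzy⟩ := h2
        have hne : x ≠ y := fun h => G.not_mem hx (h ▸ hy)
        exact (Finset.disjoint_left.1 (hdisj x (Finset.mem_union_left _ hx) y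
          (Finset.mem_union_right _ hy) hne)) hzx hzy
      start_mem := Finset.mem_biUnion.2 ⟨ν s, hN s, by rw [hσN _ (hN s)]; exact Or.inl ⟨s, rfl, rfl⟩⟩
      wf := by
        intro p hp
        obtain ⟨q, β, hr, rfl⟩ := (hP' p).1 hp
        refine ⟨?_, ?_, ?_⟩
        · exact Finset.mem_biUnion.2 ⟨ν q, hN q, by rw [hσN _ (hN q)]; exact Or.inl ⟨q, rfl, rfl⟩⟩
        · have := (G.wf _ (hR _ hr)).2.1
          simpa using this
        · intro x hx
          obtain ⟨z, hz, rfl⟩ := List.mem_map.1 hx
          have h1 := henc β (hRD _ hr) z hz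
          cases z with
          | inl q' => exact Or.inl (Finset.mem_biUnion.2 ⟨ν q', hN q', h1⟩)
          | inr x' => exact Or.inr (Finset.mem_biUnion.2 ⟨τ x', hD _ (hRD _ hr _ hz), h1⟩) }
  refine ⟨G', σ, ⟨hdisj, rfl, rfl, ?_, ?_⟩, ?_⟩
  · change e s ∈ σ G.S
    have h1 : G.S = ν s := hs.symm
    rw [h1, hσN _ (hN s)]
    exact Or.inl ⟨s, rfl, rfl⟩
  · intro p hp
    obtain ⟨q, β, hr, rfl⟩ := (hP' p).1 hp
    refine ⟨(ν q, β.map (Sum.elim ν τ)), hR _ hr, ?_, ?_⟩
    · change e q ∈ σ (ν q)
      rw [hσN _ (hN q)]; exact Or.inl ⟨q, rfl, rfl⟩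
    · change List.Forall₂ _ (β.map (Sum.elim e id)) (β.map (Sum.elim ν τ))
      have h1 := henc β (hRD _ hr)
      rw [List.forall₂_map_left_iff, List.forall₂_map_right_iff, List.forall₂_same]
      exact h1
  · symm
    refine lang_eq G' e R s rfl ?_ ?_ ?_
    · intro q
      exact Finset.mem_biUnion.2 ⟨ν q, hN q, by rw [hσN _ (hN q)]; exact Or.inl ⟨q, rfl, rfl⟩⟩
    · intro q β hr
      refine ⟨(hP' _).2 ⟨q, β, hr, rfl⟩, ?_⟩
      intro x hx
      exact Finset.mem_biUnion.2 ⟨τ x, hD _ (hRD _ hr _ hx), henc β (hRD _ hr) (Sum.inr x) hx⟩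
    · intro q γ hγ
      obtain ⟨q', β, hr, heq⟩ := (hP' _).1 hγ
      rw [Prod.mk.injEq] at heq
      have := he heq.1
      subst this
      exact ⟨β, hr, heq.2.symm⟩


open Pool.Agent.Helper230.FEq

/-- a rule over `NT` as a production -/
def cf (r : NT × List (NT ⊕ ℕ)) : ℕ × List ℕ := (code r.1, r.2.map (Sum.elim code id))

noncomputable def mkG (R0 : Finset (NT × List (NT ⊕ ℕ))) (T : Finset ℕ) (hT : ∀ x ∈ T, 8 ≤ x)
    (hne : ∀ r ∈ R0, r.2 ≠ []) (hter : ∀ r ∈ R0, ∀ x, Sum.inr x ∈ r.2 → x ∈ T) : Grammar where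
  N := Finset.range 8
  T := T
  S := 0
  P := R0.image cf
  disj := by
    rw [Finset.disjoint_left]
    intro x h1 h2
    have := hT x h2
    rw [Finset.mem_range] at h1
    omega
  start_mem := by simp
  wf := by
    intro p hp
    obtain ⟨r, hr, rfl⟩ := Finset.mem_image.1 hp
    refine ⟨Finset.mem_range.2 (code_lt _), ?_, ?_⟩
    · simpa [cf] using hne r hr
    · intro x hx
      obtain ⟨y, hy, rfl⟩ := List.mem_map.1 hx
      cases y with
      | inl A => exact Or.inl (Finset.mem_range.2 (code_lt _))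
      | inr x => exact Or.inr (hter r hr x hy)

theorem isDat (R0 : Finset (NT × List (NT ⊕ ℕ))) (T : Finset ℕ) (hT : ∀ x ∈ T, 8 ≤ x)
    (hne : ∀ r ∈ R0, r.2 ≠ []) (hter : ∀ r ∈ R0, ∀ x, Sum.inr x ∈ r.2 → x ∈ T) :
    IsDat (mkG R0 T hT hne hter).dat (R0 : Set (NT × List (NT ⊕ ℕ))) T where
  hN := by
    ext x
    change x ∈ (Finset.range 8 : Finset ℕ) ↔ _
    rw [Finset.mem_range]
    constructor
    · intro hx
      refine ⟨deco x, ?_⟩
      interval_cases x <;> rfl
    · rintro ⟨A, rfl⟩
      exact code_lt A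
  hT := rfl
  hS := rfl
  hP := by
    intro p
    change p ∈ R0.image cf ↔ _
    rw [Finset.mem_image]
    constructor
    · rintro ⟨r, hr, rfl⟩
      exact ⟨r, hr, rfl⟩
    · rintro ⟨r, hr, rfl⟩
      exact ⟨r, hr, rfl⟩
  ge := hT
  ter := hter

theorem family_mono {G G' : Grammar} (hN : G.N = G'.N) (hT : G.T = G'.T) (hS : G.S = G'.S)
    (hP : G.P ⊆ G'.P) : family G ⊆ family G' := by
  rintro L ⟨H, σ, hI, rfl⟩
  refine ⟨H, σ, ⟨?_, ?_, ?_, ?_, ?_⟩, rfl⟩
  · rw [← hN, ← hT]; exact hI.disjoint
  · rw [← hN]; exact hI.nonterminals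
  · rw [← hT]; exact hI.terminals
  · rw [← hS]; exact hI.start
  · intro p hp
    obtain ⟨q, hq, h1, h2⟩ := hI.productions p hp
    exact ⟨q, hP hq, h1, h2⟩

section fixed

variable {S : Type} [Fintype S] (Φ : S → S → List S) (K : S)
  (t : Option ((S ⊕ S × S) ⊕ S) → ℕ)

def ters : Finset ℕ := Finset.univ.image t

theorem mem_ters (a : Option ((S ⊕ S × S) ⊕ S)) : t a ∈ ters t :=
  Finset.mem_image_of_mem t (Finset.mem_univ a)

theorem pre_ters {x : ℕ} (hx : x ∈ pre t) : x ∈ ters t := by
  obtain ⟨a, _, rfl⟩ := List.mem_map.1 hx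
  exact mem_ters t a

theorem rv_ters {x : ℕ} {u : List S} (hx : x ∈ rv t u) : x ∈ ters t := by
  rw [rv, List.mem_reverse] at hx
  obtain ⟨a, _, rfl⟩ := List.mem_map.1 hx
  exact mem_ters t _

theorem s2_ter : ∀ r ∈ S2 Φ K t, ∀ x, Sum.inr x ∈ r.2 → x ∈ ters t := by
  rintro ⟨A, α⟩ h x hx
  have hq : ∀ q, ql t q ∈ ters t := fun q => mem_ters t _
  have hv : ∀ s, vl t s ∈ ters t := fun q => mem_ters t _
  have hd : dl t ∈ ters t := mem_ters t _
  change R2 Φ K t A α at h
  dsimp only at hx
  cases h with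
  | start i =>
    simp only [List.mem_append, List.mem_map, Sum.inr.injEq, exists_eq_right, List.mem_cons,
      reduceCtorEq, List.not_mem_nil, or_false] at hx
    exact pre_ters t hx
  | m1 i q =>
    simp only [List.mem_cons, List.mem_map, Sum.inr.injEq, exists_eq_right, reduceCtorEq,
      false_or] at hx
    rcases hx with rfl | hx
    · exact hq _
    · exact rv_ters t hx
  | m2 i q u _ _ =>
    simp only [List.mem_cons, List.mem_map, Sum.inr.injEq, exists_eq_right, reduceCtorEq,
      false_or] at hx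
    rcases hx with rfl | hx
    · exact hq _
    · exact rv_ters t hx
  | m3 i q u _ =>
    simp only [List.mem_cons, List.mem_map, Sum.inr.injEq, exists_eq_right, reduceCtorEq,
      false_or] at hx
    rcases hx with rfl | hx
    · exact hq _
    · exact rv_ters t hx
  | m4 i u _ _ =>
    simp only [List.mem_cons, List.mem_map, Sum.inr.injEq, exists_eq_right, reduceCtorEq,
      false_or] at hx
    rcases hx with rfl | hx
    · exact hd
    · exact rv_ters t hx
  | m5 i u _ =>
    simp only [List.mem_cons, List.mem_map, Sum.inr.injEq, exists_eq_right, reduceCtorEq,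
      false_or] at hx
    exact rv_ters t hx
  | a1 q =>
    have : x = ql t q := by simpa using hx
    rw [this]; exact hq _
  | a2 s =>
    have : x = vl t s := by simpa using hx
    rw [this]; exact hv _
  | a3 =>
    have : x = dl t := by simpa using hx
    rw [this]; exact hd
  | j1 q =>
    have : x = ql t q := by simpa using hx
    rw [this]; exact hq _
  | j2 =>
    have : x = dl t := by simpa using hx
    rw [this]; exact hd
  | d1 s =>
    have : x = vl t s := by simpa using hx
    rw [this]; exact hv _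
  | d2 =>
    have : x = dl t := by simpa using hx
    rw [this]; exact hd

theorem sf_ter : ∀ r ∈ SF t, ∀ x, Sum.inr x ∈ r.2 → x ∈ ters t := by
  rintro ⟨A, α⟩ h x hx
  have hq : ∀ q, ql t q ∈ ters t := fun q => mem_ters t _
  have hv : ∀ s, vl t s ∈ ters t := fun q => mem_ters t _
  have hd : dl t ∈ ters t := mem_ters t _
  change RF t A α at h
  dsimp only at hx
  cases h with
  | x1 p =>
    have : x = ql t (.inr p) := by simpa using hx
    rw [this]; exact hq _
  | x2 =>
    have : x = dl t := by simpa using hx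
    rw [this]; exact hd
  | y1 s =>
    have : x = vl t s := by simpa using hx
    rw [this]; exact hv _
  | y2 s =>
    have : x = vl t s := by simpa using hx
    rw [this]; exact hv _

theorem sr_ter (z : List S) : ∀ x, Sum.inr x ∈ (sr t z).2 → x ∈ ters t := by
  intro x hx
  simp only [sr, sw, List.mem_append, List.mem_map, Sum.inr.injEq, exists_eq_right, List.mem_cons,
      reduceCtorEq, List.not_mem_nil, or_false] at hx
  rcases hx with hx | ⟨s, _, rfl⟩
  · exact pre_ters t hx
  · exact mem_ters t _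

theorem s2_fin : (S2 Φ K t).Finite := by
  classical
  have hE : (Set.range (Sum.inl : NT → NT ⊕ ℕ) ∪ Sum.inr '' (ters t : Set ℕ)).Finite :=
    (Set.finite_range _).union (Set.Finite.image _ (ters t).finite_toSet)
  let Bd := (Finset.univ : Finset (Bool × (S ⊕ S × S))).sup (fun p => (β Φ p.1 p.2).length)
  have hBd : ∀ i q, (β Φ i q).length ≤ Bd := fun i q =>
    Finset.le_sup (f := fun p : Bool × (S ⊕ S × S) => (β Φ p.1 p.2).length)
      (Finset.mem_univ (i, q))
  refine ((Set.finite_univ (α := NT)).prod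
    (FEq.finite_words _ hE ((pre t).length + Bd + 10))).subset ?_
  rintro ⟨A, α⟩ hr
  refine ⟨Set.mem_univ _, ?_, ?_⟩
  · intro x hx
    cases x with
    | inl q => exact Or.inl ⟨q, rfl⟩
    | inr x => exact Or.inr ⟨x, s2_ter Φ K t _ hr x hx, rfl⟩
  · change R2 Φ K t A α at hr
    change α.length < _
    cases hr with
    | start i => simp; omega
    | m1 i q => have := hBd i q; simp [rv]; omega
    | m2 i q u h _ => have := hBd i q; simp [rv]; omega
    | m3 i q u h => have := hBd i q; simp [rv]; omega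
    | m4 i u h _ =>
      have : (kk K i).length ≤ 1 := by cases i <;> simp [kk]
      simp [rv]; omega
    | m5 i u h =>
      have : (kk K i).length ≤ 1 := by cases i <;> simp [kk]
      simp [rv]; omega
    | a1 q => simp
    | a2 s => simp
    | a3 => simp
    | j1 q => simp
    | j2 => simp
    | d1 s => simp
    | d2 => simp

theorem sf_fin : (SF t).Finite := by
  classical
  have hE : (Set.range (Sum.inl : NT → NT ⊕ ℕ) ∪ Sum.inr '' (ters t : Set ℕ)).Finite :=
    (Set.finite_range _).union (Set.Finite.image _ (ters t).finite_toSet)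
  refine ((Set.finite_univ (α := NT)).prod
    (FEq.finite_words _ hE 10)).subset ?_
  rintro ⟨A, α⟩ hr
  refine ⟨Set.mem_univ _, ?_, ?_⟩
  · intro x hx
    cases x with
    | inl q => exact Or.inl ⟨q, rfl⟩
    | inr x => exact Or.inr ⟨x, sf_ter t _ hr x hx, rfl⟩
  · change RF t A α at hr
    change α.length < _
    cases hr <;> simp

theorem s2_ne : ∀ r ∈ S2 Φ K t, r.2 ≠ [] := by
  rintro ⟨A, α⟩ hr
  change R2 Φ K t A α at hr
  change α ≠ []
  cases hr with
  | start i => intro h; simpa using congrArg List.length h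
  | _ => simp

theorem sf_ne : ∀ r ∈ SF t, r.2 ≠ [] := by
  rintro ⟨A, α⟩ hr
  change RF t A α at hr
  change α ≠ []
  cases hr <;> simp

/-- at most one nonterminal on the right side -/
def LinR (α : List (NT ⊕ ℕ)) : Prop := (α.filter (fun x => x.isLeft)).length ≤ 1

theorem filter_ters (l : List ℕ) :
    ((l.map Sum.inr : List (NT ⊕ ℕ)).filter (fun x => x.isLeft)) = [] := by
  rw [List.filter_eq_nil_iff]
  intro x hx
  obtain ⟨y, _, rfl⟩ := List.mem_map.1 hx
  simp

theorem s2_lin : ∀ r ∈ S2 Φ K t, LinR r.2 := by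
  rintro ⟨A, α⟩ hr
  change R2 Φ K t A α at hr
  change LinR α
  unfold LinR
  cases hr with
  | start i =>
    change (((pre t).map Sum.inr ++ [Sum.inl (NT.M i)] : List (NT ⊕ ℕ)).filter _).length ≤ 1
    rw [List.filter_append, filter_ters]
    simp
  | m1 i q => simp [List.filter_cons, filter_ters]
  | m2 i q u _ _ => simp [List.filter_cons, filter_ters]
  | m3 i q u _ => simp [List.filter_cons, filter_ters]
  | m4 i u _ _ => simp [List.filter_cons, filter_ters]
  | m5 i u _ => simp [List.filter_cons, filter_ters]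
  | _ => simp [List.filter_cons]

theorem sf_lin : ∀ r ∈ SF t, LinR r.2 := by
  rintro ⟨A, α⟩ hr
  change RF t A α at hr
  change LinR α
  unfold LinR
  cases hr <;> simp [List.filter_cons]

theorem sr_lin (z : List S) : LinR (sr t z).2 := by
  unfold LinR sr
  change (((sw t z).map Sum.inr ++ [Sum.inl NT.X] : List (NT ⊕ ℕ)).filter _).length ≤ 1
  rw [List.filter_append, filter_ters]
  simp

theorem mkG_linear {R0 : Finset (NT × List (NT ⊕ ℕ))} {T : Finset ℕ} {hT : ∀ x ∈ T, 8 ≤ x}
    {hne : ∀ r ∈ R0, r.2 ≠ []} {hter : ∀ r ∈ R0, ∀ x, Sum.inr x ∈ r.2 → x ∈ T}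
    (h : ∀ r ∈ R0, LinR r.2) : (mkG R0 T hT hne hter).Linear := by
  intro p hp
  obtain ⟨r, hr, rfl⟩ := Finset.mem_image.1 hp
  have h1 := h r hr
  unfold LinR at h1
  have h2 : ∀ α : List (NT ⊕ ℕ), (∀ x, Sum.inr x ∈ α → x ∈ T) →
      ((α.map (Sum.elim code id)).filter (fun x => x ∈ Finset.range 8)).length =
      (α.filter (fun x => x.isLeft)).length := by
    intro α hα
    induction α with
    | nil => rfl
    | cons x α ih =>
      have ih' := ih (fun y hy => hα y (List.mem_cons_of_mem _ hy))
      cases x with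
      | inl A =>
        have := code_lt A
        simp only [List.map_cons, Sum.elim_inl, List.filter_cons, Finset.mem_range, this,
          decide_true, if_true, Sum.isLeft_inl, List.length_cons]
        simp only [Finset.mem_range] at ih'
        rw [ih']
      | inr x =>
        have h8 : ¬ x < 8 := by have := hT x (hα x List.mem_cons_self); omega
        simp only [List.map_cons, Sum.elim_inr, List.filter_cons, Finset.mem_range, id_eq, h8,
          decide_false, Bool.false_eq_true, if_false, Sum.isLeft_inr]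
        simp only [Finset.mem_range] at ih'
        rw [ih']
  have h3 := h2 r.2 (hter r hr)
  change ((r.2.map (Sum.elim code id)).filter (fun x => x ∈ Finset.range 8)).length ≤ 1
  rw [h3]
  exact h1

end fixed

/-- The computable family of grammars with undecidable family equivalence to a fixed one. -/
theorem core : ∃ (G₂ : Grammar) (d₂ : Desc) (G₁ : ℕ → Grammar) (d₁ : ℕ → Desc),
    G₂.Linear ∧ Describes d₂ G₂ ∧ (∀ n, (G₁ n).Linear) ∧ (∀ n, Describes (d₁ n) (G₁ n)) ∧
    Computable d₁ ∧ ¬ ComputablePred (fun n => family (G₁ n) = family G₂) := by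
  classical
  obtain ⟨S, iS, Φ, K, z, hcomp, -, hund⟩ := exists_base
  obtain ⟨idx, hidx⟩ := exists_injective_nat (Option ((S ⊕ S × S) ⊕ S))
  let t : Option ((S ⊕ S × S) ⊕ S) → ℕ := fun a => idx a + 8
  have ht : Function.Injective t := fun a b h => hidx (by simpa [t] using h)
  have hT : ∀ x ∈ ters t, 8 ≤ x := by
    intro x hx
    obtain ⟨a, _, rfl⟩ := Finset.mem_image.1 hx
    simp [t]
  let F2 : Finset (NT × List (NT ⊕ ℕ)) := (s2_fin Φ K t).toFinset
  let FF : Finset (NT × List (NT ⊕ ℕ)) := (sf_fin t).toFinset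
  have hF2 : ∀ r, r ∈ F2 ↔ r ∈ S2 Φ K t := fun r => Set.Finite.mem_toFinset _
  have hFF : ∀ r, r ∈ FF ↔ r ∈ SF t := fun r => Set.Finite.mem_toFinset _
  have hF2c : (F2 : Set (NT × List (NT ⊕ ℕ))) = S2 Φ K t := by
    ext r; exact hF2 r
  let F1 : ℕ → Finset (NT × List (NT ⊕ ℕ)) := fun n => insert (sr t (z n)) (F2 ∪ FF)
  have hF1 : ∀ n r, r ∈ F1 n ↔ r = sr t (z n) ∨ r ∈ S2 Φ K t ∨ r ∈ SF t := by
    intro n r
    simp only [F1, Finset.mem_insert, Finset.mem_union, hF2, hFF]
  have hF1c : ∀ n, (F1 n : Set (NT × List (NT ⊕ ℕ))) = FEq.S1 Φ K t (z n) := by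
    intro n
    ext r
    rw [Finset.mem_coe, hF1]
    simp only [FEq.S1, SB, Set.mem_union, Set.mem_insert_iff]
    tauto
  have hne1 : ∀ n, ∀ r ∈ F1 n, r.2 ≠ [] := by
    intro n r hr
    rcases (hF1 n r).1 hr with rfl | hr | hr
    · intro h
      have := congrArg List.length h
      simp [sr] at this
    · exact s2_ne Φ K t r hr
    · exact sf_ne t r hr
  have hter1 : ∀ n, ∀ r ∈ F1 n, ∀ x, Sum.inr x ∈ r.2 → x ∈ ters t := by
    intro n r hr
    rcases (hF1 n r).1 hr with rfl | hr | hr
    · exact sr_ter t (z n)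
    · exact s2_ter Φ K t r hr
    · exact sf_ter t r hr
  have hlin1 : ∀ n, ∀ r ∈ F1 n, LinR r.2 := by
    intro n r hr
    rcases (hF1 n r).1 hr with rfl | hr | hr
    · exact sr_lin t (z n)
    · exact s2_lin Φ K t r hr
    · exact sf_lin t r hr
  let G₂ : Grammar := mkG F2 (ters t) hT (fun r hr => s2_ne Φ K t r ((hF2 r).1 hr))
    (fun r hr => s2_ter Φ K t r ((hF2 r).1 hr))
  let G₁ : ℕ → Grammar := fun n => mkG (F1 n) (ters t) hT (hne1 n) (hter1 n)
  let fixedP : List (ℕ × List ℕ) := ((F2 ∪ FF).image cf).toList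
  let d₂ : Desc := ((List.range 8, (ters t).toList), ((F2.image cf).toList, 0))
  let d₁ : ℕ → Desc := fun n => ((List.range 8, (ters t).toList),
    ((0, (pre t ++ (z n).map (fun s => ql t (.inl s))) ++ [6]) :: fixedP, 0))
  have hrange : (List.range 8).toFinset = Finset.range 8 := by
    ext x; simp
  have hd2 : IsDat G₂.dat (S2 Φ K t) (ters t) := by
    have := isDat F2 (ters t) hT (fun r hr => s2_ne Φ K t r ((hF2 r).1 hr))
      (fun r hr => s2_ter Φ K t r ((hF2 r).1 hr))
    rw [hF2c] at this
    exact this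
  have hd1 : ∀ n, IsDat (G₁ n).dat (FEq.S1 Φ K t (z n)) (ters t) := by
    intro n
    have := isDat (F1 n) (ters t) hT (hne1 n) (hter1 n)
    rw [hF1c] at this
    exact this
  refine ⟨G₂, d₂, G₁, d₁, mkG_linear (fun r hr => s2_lin Φ K t r ((hF2 r).1 hr)),
    ⟨hrange, Finset.toList_toFinset _, Finset.toList_toFinset _, rfl⟩,
    fun n => mkG_linear (hlin1 n),
    fun n => ⟨hrange, Finset.toList_toFinset _, ?_, rfl⟩, ?_, ?_⟩
  · change ((0, (pre t ++ (z n).map (fun s => ql t (.inl s))) ++ [6]) :: fixedP).toFinset =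
      (insert (sr t (z n)) (F2 ∪ FF)).image cf
    rw [List.toFinset_cons, Finset.toList_toFinset, Finset.image_insert]
    congr 1
    simp [cf, sr, sw, code, Function.comp_def]
  · have h1 := hcomp (fun s => ql t (.inl s))
    have h2 : Computable (fun n => (pre t ++ (z n).map (fun s => ql t (.inl s))) ++ [6]) :=
      Computable.list_append.comp (Computable.list_append.comp (Computable.const _) h1)
        (Computable.const _)
    exact Computable.pair (Computable.const _) (Computable.pair
      (Computable.list_cons.comp (Computable.pair (Computable.const 0) h2) (Computable.const _))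
      (Computable.const _))
  · intro hc
    apply hund
    have key : ∀ n, (family (G₁ n) = family G₂) ↔ ¬ Sol Φ K (z n) := by
      intro n
      constructor
      · intro h hsol
        have h1 : {w | Der (ExR (FEq.S1 Φ K t (z n))) [Sum.inl NT.S] w} ∈ family (G₁ n) :=
          gen_fam ((gen_iff (hd1 n) id _).2 (genR_id (hd1 n).ter))
        rw [h] at h1
        obtain ⟨τ, hτ⟩ := fam_gen h1
        exact ne_family Φ K t ht hsol τ ((gen_iff hd2 τ _).1 hτ)
      · intro h
        apply Set.Subset.antisymm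
        · intro L hL
          obtain ⟨τ, hτ⟩ := fam_gen hL
          exact gen_fam ((gen_iff hd2 τ _).2 (eq_family Φ K t hd2 h τ L
            ((gen_iff (hd1 n) τ L).1 hτ)))
        · refine family_mono (G := G₂) (G' := G₁ n) rfl rfl rfl ?_
          change F2.image cf ⊆ (F1 n).image cf
          apply Finset.image_subset_image
          intro r hr
          exact (hF1 n r).2 (Or.inr (Or.inl ((hF2 r).1 hr)))
    have h2 : (fun n => ∃ p, z n ++ flatΦ Φ p = flat2 p ++ [K]) =
        fun n => ¬ (family (G₁ n) = family G₂) := by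
      funext n
      apply propext
      rw [key n, not_not]
      rfl
    rw [h2]
    exact hc.not

/-- Family equivalence of context-free grammars is undecidable.

(1) The set of pairs of (descriptions of) context-free grammars with equal grammatical families
is not recursive.
(2) Moreover there is a fixed linear grammar `G₂` such that no recursive test decides, for
descriptions of linear grammars `G₁`, whether the families of `G₁` and `G₂` are equal. -/
theorem result :
    (¬ ComputablePred (fun p : Desc × Desc => ∃ G₁ G₂ : Grammar,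
      Describes p.1 G₁ ∧ Describes p.2 G₂ ∧ family G₁ = family G₂)) ∧
    (∃ G₂ : Grammar, G₂.Linear ∧ ¬ ∃ D : Desc → Prop, ComputablePred D ∧
      ∀ (d : Desc) (G₁ : Grammar), G₁.Linear → Describes d G₁ →
        (D d ↔ family G₁ = family G₂)) := by
  obtain ⟨G₂, d₂, G₁, d₁, hl2, hd2, hl1, hd1, hcomp, hund⟩ := core
  have hdesc : ∀ (d : Desc) (G G' : Grammar), Describes d G → Describes d G' → G = G' := by
    rintro d ⟨N, T, S, P, h1, h2, h3⟩ ⟨N', T', S', P', h1', h2', h3'⟩ ⟨a1, a2, a3, a4⟩
      ⟨b1, b2, b3, b4⟩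
    dsimp only at a1 a2 a3 a4 b1 b2 b3 b4
    have e1 : N = N' := a1.symm.trans b1
    have e2 : T = T' := a2.symm.trans b2
    have e3 : P = P' := a3.symm.trans b3
    have e4 : S = S' := a4.symm.trans b4
    subst e1 e2 e3 e4
    rfl
  constructor
  · intro h
    apply hund
    refine ComputablePred.computable_of_manyOneReducible
      (p := fun n => family (G₁ n) = family G₂) ⟨fun n => (d₁ n, d₂),
        Computable.pair hcomp (Computable.const _), fun n => ?_⟩ h
    constructor
    · intro he
      exact ⟨G₁ n, G₂, hd1 n, hd2, he⟩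
    · rintro ⟨H₁, H₂, h1, h2, he⟩
      rw [hdesc _ _ _ (hd1 n) h1, hdesc _ _ _ hd2 h2]
      exact he
  · refine ⟨G₂, hl2, ?_⟩
    rintro ⟨D, hD, hspec⟩
    apply hund
    refine ComputablePred.computable_of_manyOneReducible
      (p := fun n => family (G₁ n) = family G₂) ⟨d₁, hcomp, fun n => ?_⟩ hD
    exact (hspec _ _ (hl1 n) (hd1 n)).symm

end Pool.Agent.Results.MP_3cd25e_lc.FamilyEquivalence
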